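import Pool.Agent.Q219.PT.Reduce

/-!
# Q1 does not depend on the perfectoid base field

Let `C` be an algebraically closed perfectoid field of characteristic `0` and residue characteristic `p`,
with tilt `F = C♭` (`Tilting p C F`: absolute values, the map `x ↦ x♯`, Fontaine's map `θ`; these are the
structures of the starting result `AllPerfectoidFields`). For a perfectoid subfield `K` of `C` with tilt
`E = K♭` (`BaseField T K E`), a closed subset `X` of `ℙ^n` over `K`, given by its cone in `C^(n+1)`
(`IsConeOver K X`), and a number `d`, `Approximable T K E X d` is the statement of Q1 for `X` (if `d` is the
dimension of `X`): for all homogeneous polynomials `P_k` over `K` which vanish on `X` and all `ε > 0`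
there is a closed `Y` over `E`, of dimension `d`, with `|P_k(y♯)| ≤ ε ‖y‖ ^ deg P_k` for all points `y` of `Y`
over `F`.

About `E` we use moreover (`IsHenselianDense T E`) that the elements of `F` which are algebraic over `E` are
dense in `F`, and that elements of `F` which are conjugate over `E` have the same absolute value. Both hold
if `C` is the completion of an algebraic closure of `K`: then `F` is the completion of an algebraic closure
of the complete field `E`.

**Theorem.** Let `X` be a closed cone over `K` of dimension at most `d`. Then Q1 holds for `X` over `K` (with
`Y` defined over `K♭`) if and only if Q1 holds for `X` over `C` (with `Y` defined over `C♭`). So the answer to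
Q1 for `X` is the same for all such perfectoid subfields `K` of the given field `C` over which `X` is
defined. For example Q1 holds for all
`X` over `K` which, over `C`, are finite unions of images of set-theoretic complete intersections under
morphisms defined over `C` (`IsUnionOfImages C X d`); the starting result `AllPerfectoidFields` needs that
the complete intersections and the morphisms are defined over `K`.

The proof. One direction is easy. For the other one let `Y` be a closed subset over `F` of dimension `d` in
a small tube. We choose a homomorphism from the ring generated by the coefficients of equations of `Y` to
the algebraic closure `A` of `E` in `F` which is near to the inclusion (`exists_spec`); the specialised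
equations define a set over `A` in a slightly larger tube (by a Łojasiewicz inequality), and its dimension
has not become smaller (`dimGE_spec`). Let `Y'` be the union of all its conjugates over `E`; this is the zero
set of the ideal over `E` of all equations over `E` (`exists_embedding`). It is contained in the tube,
because for `τ` in the automorphism group of `A` over `E`, `P` over `K` and a point `y` with coordinates in
`A` of absolute value at most one one has `|P(τ(y)♯)| = |P(y♯)|` (`conj_poly`): lift `P(y♯)` to `W(O_F)`
along `θ`, with components in `A`; by the approximation process of the starting results its absolute value
can be read off from the first component of a Witt vector over `O_A`, computed from the lift by operations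
which commute with `τ`, and `τ` preserves the absolute value. Finally the `d + 1` forms over `K` without
common zero on `X` are approximated by forms over `E`, so that the dimension of `Y'` is at most `d`.
-/

set_option autoImplicit false

namespace Pool.Agent.Results.MP_db3ab1_ag.BaseFieldIndependence

open MvPolynomial Pool.Agent.Y129.TA Pool.Agent.Y129.TB Pool.Agent.Q219.PT

/-- **Q1 does not depend on the base field.** -/
theorem result {p : ℕ} [Fact p.Prime] {C F : Type} [Field C] [Field F] [CharP F p] [IsAlgClosed C]
    [IsAlgClosed F] (T : Tilting p C F) (n d : ℕ) (K E : Type) [Field K] [Field E] [Algebra K C]
    [Algebra E F] (hK : BaseField T K E) (hE : IsHenselianDense T.toTiltPair E)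
    (X : Set (Fin (n + 1) → C)) (hX : IsConeOver K X) (hd : DimLEOver K X d) :
    (Approximable T.toTiltPair K E X d ↔ Approximable T.toTiltPair C F X d) ∧
      (IsUnionOfImages C X d → Approximable T.toTiltPair K E X d) := by
  refine ⟨arithmetic_iff hK hE hX hd, fun h => arithmetic_of_geometric hK hE hX hd ?_⟩
  obtain ⟨hdC, N, c, m', e, h', f, hN, hm, hh, he, hf, h0, rfl⟩ := h
  exact approximable_iUnion T (baseField_self T) hN h' hh f he hf h0 hm hdC

end Pool.Agent.Results.MP_db3ab1_ag.BaseFieldIndependence
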