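import Pool.Agent.Q219.PT.Main

/-!
# Q1 is closed under limits and specialisation

Let `K` be a perfectoid field of characteristic `0` and residue characteristic `p`, `E = K♭` its tilt, `C`
the completion of an algebraic closure of `K`, `F = C♭`. The structures `Tilting p C F` and
`BaseField T K E` and the property `Approximable T K E X d` (Q1 for the closed subset `X` of projective
space over `K`, of dimension `d`) are those of the starting result `AllPerfectoidFields`. A closed subset
of projective space is given by its cone (`IsConeOver K X`). `Near T X δ z` says that there is a point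
`x` of `X` such that `|z_i - x_i| ≤ δ ‖z‖` for all `i`; `rootsOf q X` is the set of all `x` such that
`(x_i ^ q)` is in `X`.

**Theorem.**

1. Limits: let `X` be a closed cone over `K`. If for every `ε > 0` there are `m`, `r > 0` with
   `r ^ (p ^ m) ≤ ε` and a closed cone `X'` over `K`, which is contained in the tube of radius `r` around
   `rootsOf (p ^ m) X` and satisfies Q1, then `X` satisfies Q1. (For `m = 0`: `X` is a limit of the `X'` for
   the projective distance. In general the radii may tend to `1`.)
2. In particular Q1 holds for `X`, if the `X'` in 1 are finite unions of images of set-theoretic complete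
   intersections. This is unconditional.
3. Specialisation: let `X_t`, `t ∈ K^s`, be the members of an algebraic family of closed cones over `K`,
   defined by polynomials `G_j(t, x)`. If Q1 (with dimension `d`) holds for members `X_t` with `t`
   arbitrarily close to `0`, it holds for `X_0`.

For example all specialisations, of the same dimension, of families of (images of) complete
intersections satisfy Q1.
-/

set_option autoImplicit false

namespace Pool.Agent.Results.MP_db3ab1_ag.LimitsAndSpecialisations

open MvPolynomial Pool.Agent.Y129.TA Pool.Agent.Y129.TB Pool.Agent.Q219.PT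

/-- **Q1 is closed under limits and specialisation.** -/
theorem result {p : ℕ} [Fact p.Prime] {C F K E : Type} [Field C] [Field F] [CharP F p] [Field K]
    [Field E] [Algebra K C] [Algebra E F] [IsAlgClosed C] [IsAlgClosed F] (T : Tilting p C F)
    (B : BaseField T K E) {n d : ℕ} :
    (∀ X : Set (Fin (n + 1) → C), IsConeOver K X →
      -- 1. limits
      ((∀ ε : ℝ, 0 < ε → ∃ m : ℕ, ∃ r : ℝ, 0 < r ∧ r ^ p ^ m ≤ ε ∧
          ∃ X' : Set (Fin (n + 1) → C), IsConeOver K X' ∧ Approximable T.toTiltPair K E X' d ∧
            ∀ x ∈ X', Near T.toTiltPair (rootsOf (p ^ m) X) r x) →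
        Approximable T.toTiltPair K E X d) ∧
      -- 2. limits of images of complete intersections
      ((∀ ε : ℝ, 0 < ε → ∃ m : ℕ, ∃ r : ℝ, 0 < r ∧ r ^ p ^ m ≤ ε ∧
          ∃ X' : Set (Fin (n + 1) → C), IsUnionOfImages K X' d ∧
            ∀ x ∈ X', Near T.toTiltPair (rootsOf (p ^ m) X) r x) →
        Approximable T.toTiltPair K E X d)) ∧
    -- 3. specialisation
    ∀ (s r : ℕ) (G : Fin r → MvPolynomial (Fin s ⊕ Fin (n + 1)) K),
      (∀ t : Fin s → K, IsConeOver K (member C G t)) →
      (∀ δ : ℝ, 0 < δ → ∃ t : Fin s → K, (∀ i, T.absK (algebraMap K C (t i)) ≤ δ) ∧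
        Approximable T.toTiltPair K E (member C G t) d) →
      Approximable T.toTiltPair K E (member C G (0 : Fin s → K)) d := by
  refine ⟨fun X hX => ⟨approximable_of_limit hX, fun h => ?_⟩,
    fun s r G hG h => approximable_of_family G hG h⟩
  refine approximable_of_limit hX fun ε hε => ?_
  obtain ⟨m, r, hr, hrm, X', ⟨hd, N, c, m', e, h', f, hN, hm, hh, he, hf, h0, rfl⟩, hX'⟩ := h ε hε
  exact ⟨m, r, hr, hrm, _, cone_iUnion _ fun i => imageOver_cone (hh i) (hf i) (he i) (h0 i),
    approximable_iUnion T B hN h' hh f he hf h0 hm hd, hX'⟩

end Pool.Agent.Results.MP_db3ab1_ag.LimitsAndSpecialisations
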