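import Pool.Agent.Q219.PT.Main

/-!
# Coarse approximations of the `p`-power roots are enough

Let `K` be a perfectoid field of characteristic `0` and residue characteristic `p`, `E = K♭` its tilt, `C`
the completion of an algebraic closure of `K`, `F = C♭`, `π(y_0 : ... : y_n) = (y_0♯ : ... : y_n♯)`. The
structures `Tilting p C F` and `BaseField T K E` and the property `Approximable T K E X d` (Q1 for the
closed subset `X` of projective space over `K`, of dimension `d`) are those of the starting result
`AllPerfectoidFields`. A closed subset of projective space is given by its cone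
(`IsConeOver K X`).

For a point `z` of `C^(n+1)`, `Near T X δ z` says that there is a point `x` of `X` such that
`|z_i - x_i| ≤ δ ‖z‖` for all `i`, where `‖z‖ = size T z` is the maximum of the `|z_i|`.
`ApproxWithin T E X d δ`: there is a closed `Y` over `E = K♭` of dimension `d` such that `y♯` is at
distance at most `δ` from `X` for all points `y` of `Y`. `rootsOf q X` is the set of all `x` such that
`(x_i ^ q)` is in `X`.

**Theorem.** Let `X` be a closed cone over `K`. The following are equivalent.

* Q1 holds for `X`.
* `ApproxWithin T E X d δ` for all `δ > 0`.
* Q1 holds for `rootsOf (p ^ m) X` (for one `m`, for all `m`).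
* (One fixed radius is enough.) For infinitely many `m` there is an approximation `Y` of
  `rootsOf (p ^ m) X` within the radius `ρ`; here `ρ` is any number with `0 < ρ < 1`, for example
  `|p|^(1/100)`. (For `ρ ≥ |p|` the rings `O_C / ρ` and `O_F / ρ` are isomorphic, and this is a condition
  for the reductions modulo `ρ`.)
* (The radii may tend to `1`.) For every `ε > 0` there are `m` and `r > 0` with `r ^ (p ^ m) ≤ ε` and an
  approximation of `rootsOf (p ^ m) X` within the radius `r`.

Proof. A Łojasiewicz inequality over algebraically closed fields with an absolute value (`loj`):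
points of the unit ball, in which the equations of `X` are small, are near to `X`. It is proved by
a limit argument with an ultrafilter: a sequence of approximate solutions of a system of polynomial
equations is near to a sequence of solutions; one eliminates one variable after the other, with
subresultants replaced by division with remainder by polynomials of minimal degree. Raising to
the `p`-th power coordinatewise maps approximations of `rootsOf p X` to approximations of `X`. If
`|a - b| ≤ r` in the unit ball then `|a^p - b^p| ≤ max (r^p) (|p| r)`. So after `m` steps the radius is at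
most `max (r ^ (p ^ (m - N))) (|p| ^ N)` for all `N ≤ m`, `N > 0`. In the characteristic `p` the map
`y ↦ (y_i ^ p)` is a bijection on `F^(n+1)`, and it respects the closed cones over `E` and the dimension.
-/

set_option autoImplicit false

namespace Pool.Agent.Results.MP_db3ab1_ag.OneRadiusSuffices

open MvPolynomial Pool.Agent.Y129.TA Pool.Agent.Y129.TB Pool.Agent.Q219.PT

/-- **Coarse approximations of the roots are enough.** -/
theorem result {p : ℕ} [Fact p.Prime] {C F K E : Type} [Field C] [Field F] [CharP F p] [Field K]
    [Field E] [Algebra K C] [Algebra E F] [IsAlgClosed C] [IsAlgClosed F] (T : Tilting p C F)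
    {n d : ℕ} (X : Set (Fin (n + 1) → C)) (hX : IsConeOver K X) :
    -- distances
    (Approximable T.toTiltPair K E X d ↔ ∀ δ : ℝ, 0 < δ → ApproxWithin T.toTiltPair E X d δ) ∧
      -- roots
      (∀ m : ℕ, Approximable T.toTiltPair K E X d ↔
        Approximable T.toTiltPair K E (rootsOf (p ^ m) X) d) ∧
      -- one fixed radius
      (∀ ρ : ℝ, 0 < ρ → ρ < 1 → (Approximable T.toTiltPair K E X d ↔
        ∀ M : ℕ, ∃ m : ℕ, M ≤ m ∧ ApproxWithin T.toTiltPair E (rootsOf (p ^ m) X) d ρ)) ∧
      -- radii tending to one
      (Approximable T.toTiltPair K E X d ↔
        ∀ ε : ℝ, 0 < ε → ∃ m : ℕ, ∃ r : ℝ, 0 < r ∧ r ^ p ^ m ≤ ε ∧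
          ApproxWithin T.toTiltPair E (rootsOf (p ^ m) X) d r) := by
  refine ⟨approximable_iff hX, approximable_iff_roots hX, fun ρ hρ hρ1 => ?_,
    approximable_iff_coarse hX⟩
  rw [approximable_iff_frequently hX hρ hρ1, Filter.frequently_atTop]

end Pool.Agent.Results.MP_db3ab1_ag.OneRadiusSuffices
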