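import Pool.Agent.Q219.PT.Reduce

/-!
# It suffices to treat smooth varieties over number fields

Let `C` be an algebraically closed perfectoid field of characteristic `0` and residue characteristic `p`,
with tilt `F = C♭` (`Tilting p C F`: absolute values, the map `x ↦ x♯`, Fontaine's map `θ`; these are the
structures of the starting result `AllPerfectoidFields`). For a perfectoid subfield `K` of `C` with tilt
`E = K♭` (`BaseField T K E`), a closed subset `X` of `ℙ^n` over `K`, given by its cone in `C^(n+1)`, and a
number `d`, `Approximable T K E X d` is the statement of Q1 for `X` (if `d` is the dimension of `X`): for
all homogeneous polynomials `P_k` over `K` which vanish on `X` and all `ε > 0` there is a closed `Y` over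
`E`, of dimension `d`, with `|P_k(y♯)| ≤ ε ‖y‖ ^ deg P_k` for all points `y` of `Y` over `F`.

About `E` we use moreover (`IsHenselianDense T E`) that the elements of `F` which are algebraic over `E` are
dense in `F`, and that elements of `F` which are conjugate over `E` have the same absolute value. Both hold
if `C` is the completion of an algebraic closure of `K`.

**Theorem.** Let `k` be an algebraically closed field which is dense in `C` (`IsDenseIn T k`), for
example the field of algebraic numbers if `C = ℂ_p`.

1. (Smooth varieties are limits of smooth varieties over number fields.) Let `X` be a smooth closed
   subscheme of `ℙ^n` over `C` of dimension `d`. Then for all `δ > 0` there is a smooth closed subscheme `X'`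
   of `ℙ^n` over `k`, of the same dimension, which is contained in the tube of radius `δ` around `X`
   (`Near`). Here `IsSmoothOfDim k X d` says that `X` is the set of points over `C` of a closed subscheme of
   `ℙ^n` over `k`, defined by homogeneous polynomials `g_j` with the Jacobian criterion `IsSmooth`: for every
   point `x` some of the `g_j`, with linearly independent gradients at `x`, generate the ideal of the
   subscheme after the localisation at `x`; and that its dimension is `d`. It may have components of
   different dimensions.
2. (Reduction to number fields.) Q1 for all smooth closed subschemes of dimension `d` of `ℙ^n` over `k`,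
   considered over `C`, is equivalent to Q1 for all smooth closed subschemes of dimension `d` of `ℙ^n` over
   all perfectoid subfields `K` of `C` as above. So for `C = ℂ_p` the problem Q1, which is about all
   perfectoid fields `K` with the completed algebraic closure `ℂ_p`, is a problem on smooth projective
   varieties over number fields and the single field `K = ℂ_p`.

The proof. 1. By quasi-compactness smoothness is a consequence of finitely many polynomial identities
`h g_j = ∑ b_i g_i` and of the nonexistence of common zeros of a system of homogeneous polynomials
(`exists_certificate`). The latter is an open condition (`open_noZero`), and identities are preserved by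
the specialisation of the coefficients. 2 follows from 1, the independence of the base field
(`BaseFieldIndependence`) and the closure of Q1 under limits (`LimitsAndSpecialisations`).
-/

set_option autoImplicit false

namespace Pool.Agent.Results.MP_db3ab1_ag.SmoothOverNumberFields

open MvPolynomial Pool.Agent.Y129.TA Pool.Agent.Y129.TB Pool.Agent.Q219.PT

/-- **It suffices to treat smooth varieties over number fields.** -/
theorem result {p : ℕ} [Fact p.Prime] {C F : Type} [Field C] [Field F] [CharP F p] [IsAlgClosed C]
    [IsAlgClosed F] (T : Tilting p C F) (n d : ℕ) (k : Type) [Field k] [Algebra k C]
    [IsAlgClosed k] (hk : IsDenseIn T.toTiltPair k) :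
    -- 1. smooth varieties are limits of smooth varieties over `k`
    (∀ X : Set (Fin (n + 1) → C), IsSmoothOfDim C X d → ∀ δ : ℝ, 0 < δ →
      ∃ X' : Set (Fin (n + 1) → C), IsSmoothOfDim k X' d ∧ ∀ x ∈ X', Near T.toTiltPair X δ x) ∧
    -- 2. Q1 for smooth varieties over `k` is equivalent to Q1 for all smooth varieties over all `K`
    ((∀ X' : Set (Fin (n + 1) → C), IsSmoothOfDim k X' d → Approximable T.toTiltPair C F X' d) ↔
      ∀ (K E : Type) [Field K] [Field E] [Algebra K C] [Algebra E F], BaseField T K E →
        IsHenselianDense T.toTiltPair E → ∀ X : Set (Fin (n + 1) → C), IsSmoothOfDim K X d →
          Approximable T.toTiltPair K E X d) := by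
  refine ⟨fun X hX δ hδ => exists_near_smooth T hk hX hδ, fun h K E _ _ _ _ B hE X hX =>
      reduction T hk h B hE hX, fun h X' hX' => ?_⟩
  exact h C F (baseField_self T) henselianDense_self X' (smooth_baseChange hX')

end Pool.Agent.Results.MP_db3ab1_ag.SmoothOverNumberFields
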